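import Mathlib

/-!
# Finite orbits of irreducible parabolic subgroups

Q1 asks for a bound `N(n)` for the size of all finite orbits of all elements of all Artin-Tits groups
of spherical type of rank `n` on the irreducible parabolic subgroups.

(1) Taken literally the answer is no, already for `n = 2`: the dihedral types `I₂(m)` all have rank
two, and in the group of type `I₂(2h)` the orbit of `⟨s⟩` under `s t` is finite and has exactly `h`
elements.

(2) For a fixed group `G` of spherical type, with finite Coxeter group `W` (this is the meaning of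
the question in the field, and what is left when the dihedral types are set aside), the answer is yes:
the size of every finite orbit of `α` divides the order of the image of `α` in `W`, hence is at most
the exponent of `W`. The proof uses two known theorems, which are hypotheses here:
roots in the pure Artin group are unique (the pure Artin groups of spherical type are residually
torsion-free nilpotent, Marin 2006, from the linearity theorems of Krammer, Bigelow, Cohen-Wales and
Digne), and for each irreducible parabolic subgroup `P` there is an element `z` such that `P` and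
`α⁻¹ P α` are equal if and only if `α` commutes with `z` (Cumplido, Gebhardt, Gonzalez-Meneses and
Wiest 2019, from a theorem of Godelle). The idea for (2) is due to helper51.
-/

set_option autoImplicit false

namespace Pool.Agent.Results.MP_685115_al.FiniteOrbits

open CoxeterSystem

/-! ## Conjugation of subgroups -/

section Group

variable {G : Type} [Group G]

/-- `P ^ α = α⁻¹ P α` -/
def cj (α : G) (P : Subgroup G) : Subgroup G := P.map (MulAut.conj α⁻¹).toMonoidHom

/-- the orbit of `P` under `α` -/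
def orb (α : G) (P : Subgroup G) : Set (Subgroup G) := {Q | ∃ k : ℤ, Q = cj (α ^ k) P}

theorem mem_cj {α x : G} {P : Subgroup G} : x ∈ cj α P ↔ α * x * α⁻¹ ∈ P := by
  unfold cj
  rw [Subgroup.mem_map]
  constructor
  · rintro ⟨y, hy, rfl⟩
    have : α * ((MulAut.conj α⁻¹).toMonoidHom y) * α⁻¹ = y := by
      simp [mul_assoc]
    rwa [this]
  · intro h
    exact ⟨_, h, by simp [mul_assoc]⟩

theorem cj_one (P : Subgroup G) : cj 1 P = P := by
  ext x; rw [mem_cj]; simp

theorem cj_mul (a b : G) (P : Subgroup G) : cj (a * b) P = cj b (cj a P) := by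
  ext x
  rw [mem_cj, mem_cj, mem_cj]
  simp [mul_assoc]

theorem cj_inj {a : G} {P Q : Subgroup G} (h : cj a P = cj a Q) : P = Q := by
  have := congrArg (cj a⁻¹) h
  rwa [← cj_mul, ← cj_mul, mul_inv_cancel, cj_one, cj_one] at this

/-- the elements which fix `P` -/
def Fx (P : Subgroup G) : Subgroup G where
  carrier := {a | cj a P = P}
  one_mem' := cj_one P
  mul_mem' := by
    intro a b ha hb
    show cj (a * b) P = P
    rw [cj_mul, show cj a P = P from ha]
    exact hb
  inv_mem' := by
    intro a ha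
    show cj a⁻¹ P = P
    have h : cj a P = P := ha
    conv_lhs => rw [← h, ← cj_mul, mul_inv_cancel, cj_one]

theorem mem_Fx {a : G} {P : Subgroup G} : a ∈ Fx P ↔ cj a P = P := Iff.rfl

theorem cj_mod {α : G} {P : Subgroup G} {e : ℕ} (he : 0 < e) (h : cj (α ^ e) P = P) (k : ℤ) :
    ∃ r : ℕ, r < e ∧ cj (α ^ k) P = cj (α ^ r) P := by
  refine ⟨(k % e).toNat, ?_, ?_⟩
  · have h1 := Int.emod_lt_of_pos k (by exact_mod_cast he : (0 : ℤ) < e)
    have h2 := Int.emod_nonneg k (by exact_mod_cast he.ne' : (e : ℤ) ≠ 0)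
    omega
  · have h2 := Int.emod_nonneg k (by exact_mod_cast he.ne' : (e : ℤ) ≠ 0)
    have h3 : α ^ k = (α ^ e) ^ (k / e) * α ^ (k % e).toNat := by
      rw [← zpow_natCast α (k % e).toNat, Int.toNat_of_nonneg h2, ← zpow_natCast α e, ← zpow_mul,
        ← zpow_add, Int.mul_ediv_add_emod]
    have h4 : cj ((α ^ e) ^ (k / e)) P = P := mem_Fx.1 ((Fx P).zpow_mem (mem_Fx.2 h) _)
    rw [h3, cj_mul, h4]

theorem orb_sub {α : G} {P : Subgroup G} {e : ℕ} (he : 0 < e) (h : cj (α ^ e) P = P) :
    orb α P = (fun r : ℕ => cj (α ^ r) P) '' (Finset.range e : Set ℕ) := by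
  ext Q
  constructor
  · rintro ⟨k, rfl⟩
    obtain ⟨r, hr, h1⟩ := cj_mod he h k
    exact ⟨r, by simpa using hr, h1.symm⟩
  · rintro ⟨r, -, rfl⟩
    exact ⟨r, by rw [zpow_natCast]⟩

/-- a finite orbit: some power fixes `P` -/
theorem exists_period {α : G} {P : Subgroup G} (hfin : (orb α P).Finite) :
    ∃ k : ℕ, 0 < k ∧ cj (α ^ k) P = P := by
  have hni : ¬ Function.Injective fun k : ℕ => (⟨cj (α ^ k) P, ⟨k, by rw [zpow_natCast]⟩⟩ :
      {Q // Q ∈ orb α P}) := by
    have : Finite {Q // Q ∈ orb α P} := hfin.to_subtype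
    exact not_injective_infinite_finite _
  rw [Function.Injective] at hni
  push Not at hni
  obtain ⟨i, j, hij, hne⟩ := hni
  have hij : cj (α ^ i) P = cj (α ^ j) P := congrArg Subtype.val hij
  rcases lt_or_gt_of_ne hne with h | h
  · refine ⟨j - i, by omega, cj_inj (a := α ^ i) ?_⟩
    rw [← cj_mul, ← pow_add, Nat.sub_add_cancel h.le, hij]
  · refine ⟨i - j, by omega, cj_inj (a := α ^ j) ?_⟩
    rw [← cj_mul, ← pow_add, Nat.sub_add_cancel h.le, hij]

/-- the size of the orbit divides every period -/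
theorem ncard_dvd {α : G} {P : Subgroup G} {e : ℕ} (he : 0 < e) (h : cj (α ^ e) P = P) :
    (orb α P).ncard ∣ e := by
  classical
  have hex : ∃ k : ℕ, 0 < k ∧ cj (α ^ k) P = P := ⟨e, he, h⟩
  obtain ⟨hd0, hd⟩ := Nat.find_spec hex
  have hmin : ∀ k : ℕ, 0 < k → cj (α ^ k) P = P → Nat.find hex ≤ k := fun k h0 h1 =>
    Nat.find_min' hex ⟨h0, h1⟩
  generalize Nat.find hex = d at hd0 hd hmin
  have hinj : Set.InjOn (fun r : ℕ => cj (α ^ r) P) (Finset.range d : Set ℕ) := by
    intro i hi j hj hij
    simp only [Finset.coe_range, Set.mem_Iio] at hi hj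
    have hij : cj (α ^ i) P = cj (α ^ j) P := hij
    rcases lt_trichotomy i j with h1 | h1 | h1
    · have : cj (α ^ (j - i)) P = P := cj_inj (a := α ^ i) (by
        rw [← cj_mul, ← pow_add, Nat.sub_add_cancel h1.le, hij])
      have := hmin _ (by omega) this
      omega
    · exact h1
    · have : cj (α ^ (i - j)) P = P := cj_inj (a := α ^ j) (by
        rw [← cj_mul, ← pow_add, Nat.sub_add_cancel h1.le, hij])
      have := hmin _ (by omega) this
      omega
  rw [orb_sub hd0 hd, hinj.ncard_image, Set.ncard_coe_finset, Finset.card_range]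
  by_contra hnd
  have hr : 0 < e % d := Nat.pos_of_ne_zero fun h0 => hnd (Nat.dvd_of_mod_eq_zero h0)
  have h2 : α ^ (e % d) = (α ^ d) ^ (-((e / d : ℕ) : ℤ)) * α ^ e := by
    have h3 : α ^ e = (α ^ d) ^ (e / d) * α ^ (e % d) := by
      rw [← pow_mul, ← pow_add, Nat.div_add_mod]
    rw [h3, zpow_neg, zpow_natCast, inv_mul_cancel_left]
  have h4 : α ^ (e % d) ∈ Fx P := by
    rw [h2]
    exact (Fx P).mul_mem ((Fx P).zpow_mem (mem_Fx.2 hd) _) (mem_Fx.2 h)
  have := hmin _ hr (mem_Fx.1 h4)
  have := Nat.mod_lt e hd0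
  omega

/-- the bound, from unique roots -/
theorem bound (K : Subgroup G) [K.Normal]
    (hroot : ∀ x ∈ K, ∀ y ∈ K, ∀ k : ℕ, 0 < k → x ^ k = y ^ k → x = y) (P : Subgroup G)
    (z : G) (hz : ∀ α, cj α P = P ↔ α * z = z * α) (α : G) (e : ℕ) (he : 0 < e) (hK : α ^ e ∈ K)
    (hfin : (orb α P).Finite) :
    cj (α ^ e) P = P ∧ (orb α P).ncard ∣ e := by
  have h1 : cj (α ^ e) P = P := by
    obtain ⟨k, hk, hkP⟩ := exists_period hfin
    rw [hz]
    have hc : Commute (α ^ k) z := (hz _).1 hkP
    have hc2 : Commute ((α ^ e) ^ k) z := by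
      have : (α ^ e) ^ k = (α ^ k) ^ e := by rw [← pow_mul, ← pow_mul, mul_comm]
      rw [this]
      exact hc.pow_left e
    have h2 : (z * α ^ e * z⁻¹) ^ k = (α ^ e) ^ k := by
      rw [conj_pow, ← hc2.eq, mul_assoc, mul_inv_cancel, mul_one]
    have h3 := hroot _ ((inferInstance : K.Normal).conj_mem _ hK z) _ hK k hk h2
    rw [mul_inv_eq_iff_eq_mul] at h3
    exact h3.symm
  exact ⟨h1, ncard_dvd he h1⟩

end Group

/-! ## Artin-Tits groups -/

section Artin

variable {B : Type}

/-- the braid relations `s_i s_j s_i ⋯ = s_j s_i s_j ⋯` (`M i j` factors, no relation if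
`M i j = 0`, which means `∞`) -/
def rels (M : CoxeterMatrix B) : Set (FreeGroup B) :=
  {r | ∃ i j : B, r = ((braidWord M i j).map FreeGroup.of).prod *
    (((braidWord M j i).map FreeGroup.of).prod)⁻¹}

/-- the Artin-Tits group of the Coxeter matrix `M` -/
abbrev Artin (M : CoxeterMatrix B) : Type := PresentedGroup (rels M)

/-- the standard generators -/
def gen (M : CoxeterMatrix B) (i : B) : Artin M := PresentedGroup.of i

/-- the standard parabolic subgroup of `X` -/
def std (M : CoxeterMatrix B) (X : Set B) : Subgroup (Artin M) := Subgroup.closure (gen M '' X)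

/-- `X` is nonempty and the Coxeter graph of `X` is connected -/
def Irr (M : CoxeterMatrix B) (X : Set B) : Prop :=
  X.Nonempty ∧ ∀ i ∈ X, ∀ j ∈ X,
    Relation.ReflTransGen (fun a b => a ∈ X ∧ b ∈ X ∧ M a b ≠ 2) i j

/-- `P` is a proper irreducible parabolic subgroup -/
def IsVertex (M : CoxeterMatrix B) (P : Subgroup (Artin M)) : Prop :=
  P ≠ ⊤ ∧ ∃ X : Set B, Irr M X ∧ ∃ g : Artin M, P = cj g (std M X)

theorem toCox_rels (M : CoxeterMatrix B) : ∀ r ∈ rels M, FreeGroup.lift M.simple r = 1 := by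
  rintro r ⟨i, j, rfl⟩
  have h : ∀ l : List B, FreeGroup.lift M.simple ((l.map FreeGroup.of).prod) =
      M.toCoxeterSystem.wordProd l := by
    intro l
    rw [map_list_prod, List.map_map]
    unfold CoxeterSystem.wordProd
    congr 1
  rw [map_mul, map_inv, h, h, M.toCoxeterSystem.wordProd_braidWord_eq, mul_inv_cancel]

/-- the projection onto the Coxeter group -/
def toCox (M : CoxeterMatrix B) : Artin M →* M.Group := PresentedGroup.toGroup (toCox_rels M)

theorem toCox_gen (M : CoxeterMatrix B) (i : B) : toCox M (gen M i) = M.simple i :=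
  PresentedGroup.toGroup.of _

/-- roots in the pure Artin group (the kernel of the projection) are unique -/
def UniqueRoots (M : CoxeterMatrix B) : Prop :=
  ∀ x ∈ (toCox M).ker, ∀ y ∈ (toCox M).ker, ∀ k : ℕ, 0 < k → x ^ k = y ^ k → x = y

/-- the normaliser of an irreducible parabolic subgroup is the centraliser of an element -/
def CentralElements (M : CoxeterMatrix B) : Prop :=
  ∀ P : Subgroup (Artin M), IsVertex M P → ∃ z : Artin M, ∀ α, cj α P = P ↔ α * z = z * α

/-- the assertion of Q1 for the rank `n` -/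
def Uniform (n : ℕ) : Prop :=
  ∃ N : ℕ, ∀ M : CoxeterMatrix (Fin n), Finite M.Group → ∀ (α : Artin M) (P : Subgroup (Artin M)),
    IsVertex M P → (orb α P).Finite → (orb α P).ncard ≤ N

/-! ## The dihedral types -/

theorem finite_dihedral (m : ℕ) : Finite (CoxeterMatrix.I m).Group := by
  set cs := (CoxeterMatrix.I m).toCoxeterSystem with hcs
  set s := cs.simple 0 with hs
  set t := cs.simple 1 with ht
  have hM : (CoxeterMatrix.I m).M 0 1 = m + 2 := by simp [CoxeterMatrix.I]
  have hst : (s * t) ^ (m + 2) = 1 := by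
    have := cs.simple_mul_simple_pow 0 1
    rwa [show (CoxeterMatrix.I m) 0 1 = m + 2 from hM] at this
  have hss : s * s = 1 := cs.simple_mul_simple_self 0
  have htt : t * t = 1 := cs.simple_mul_simple_self 1
  have h1 : Finite (Subgroup.zpowers (s * t)) :=
    (finite_zpowers.2 (isOfFinOrder_iff_pow_eq_one.2 ⟨m + 2, by omega, hst⟩)).to_subtype
  have h2 : Finite (Subgroup.zpowers s) :=
    (finite_zpowers.2 (isOfFinOrder_iff_pow_eq_one.2 ⟨2, by omega, by rw [pow_two, hss]⟩)).to_subtype
  have hsw : ∀ x ∈ Subgroup.zpowers (s * t), ∃ x' ∈ Subgroup.zpowers (s * t), s * x = x' * s := by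
    rintro _ ⟨k, rfl⟩
    refine ⟨(s * t) ^ (-k), ⟨-k, rfl⟩, ?_⟩
    have hinv : s * (s * t) * s⁻¹ = (s * t)⁻¹ := by
      have e1 : s⁻¹ = s := inv_eq_of_mul_eq_one_left hss
      have e2 : t⁻¹ = t := inv_eq_of_mul_eq_one_left htt
      rw [mul_inv_rev, e1, e2, ← mul_assoc, hss, one_mul]
    have : s * (s * t) ^ k * s⁻¹ = (s * t) ^ (-k) := by
      rw [← conj_zpow, hinv, inv_zpow, zpow_neg]
    rw [← this]; group
  have hsurj : Function.Surjective (fun q : Subgroup.zpowers (s * t) × Subgroup.zpowers s =>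
      (q.1 : (CoxeterMatrix.I m).Group) * q.2) := by
    have hS : ∀ w : (CoxeterMatrix.I m).Group,
        (∃ x ∈ Subgroup.zpowers (s * t), ∃ y ∈ Subgroup.zpowers s, w = x * y) →
        ∃ x ∈ Subgroup.zpowers (s * t), ∃ y ∈ Subgroup.zpowers s, s * w = x * y := by
      rintro w ⟨x, hx, y, hy, rfl⟩
      obtain ⟨x', hx', h⟩ := hsw x hx
      exact ⟨x', hx', s * y, (Subgroup.zpowers s).mul_mem (Subgroup.mem_zpowers s) hy, by
        rw [← mul_assoc, h, mul_assoc]⟩
    have key : ∀ w : (CoxeterMatrix.I m).Group,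
        ∃ x ∈ Subgroup.zpowers (s * t), ∃ y ∈ Subgroup.zpowers s, w = x * y := by
      intro w
      refine cs.simple_induction_left (p := fun w => ∃ x ∈ Subgroup.zpowers (s * t),
        ∃ y ∈ Subgroup.zpowers s, w = x * y) w
        ⟨1, Subgroup.one_mem _, 1, Subgroup.one_mem _, by simp⟩ ?_
      intro w i hw
      fin_cases i
      · exact hS w hw
      · have e : cs.simple 1 * w = s * ((s * t) * w) := by
          rw [← mul_assoc, ← mul_assoc, hss, one_mul]
        show ∃ x ∈ Subgroup.zpowers (s * t), ∃ y ∈ Subgroup.zpowers s, cs.simple 1 * w = x * y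
        rw [e]
        apply hS
        obtain ⟨x, hx, y, hy, rfl⟩ := hw
        exact ⟨s * t * x, (Subgroup.zpowers (s * t)).mul_mem (Subgroup.mem_zpowers _) hx, y, hy,
          by simp only [mul_assoc]⟩
    intro w
    obtain ⟨x, hx, y, hy, h⟩ := key w
    exact ⟨(⟨x, hx⟩, ⟨y, hy⟩), h.symm⟩
  exact Finite.of_surjective _ hsurj

theorem liftable (m : ℕ) : (CoxeterMatrix.I m).IsLiftable
    (![DihedralGroup.sr 0, DihedralGroup.sr 1] : Fin 2 → DihedralGroup (m + 2)) := by
  intro i j
  fin_cases i <;> fin_cases j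
  · simp
  · have hM : (CoxeterMatrix.I m).M 0 1 = m + 2 := by simp [CoxeterMatrix.I]
    show ((DihedralGroup.sr 0 : DihedralGroup (m + 2)) * DihedralGroup.sr 1) ^
      ((CoxeterMatrix.I m).M 0 1) = 1
    rw [hM, DihedralGroup.sr_mul_sr, DihedralGroup.r_pow]
    simp
  · have hM : (CoxeterMatrix.I m).M 1 0 = m + 2 := by simp [CoxeterMatrix.I]
    show ((DihedralGroup.sr 1 : DihedralGroup (m + 2)) * DihedralGroup.sr 0) ^
      ((CoxeterMatrix.I m).M 1 0) = 1
    rw [hM, DihedralGroup.sr_mul_sr, DihedralGroup.r_pow]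
    simp
  · simp

/-- the projection onto the dihedral group -/
noncomputable def phi (m : ℕ) : Artin (CoxeterMatrix.I m) →* DihedralGroup (m + 2) :=
  ((CoxeterMatrix.I m).toCoxeterSystem.lift ⟨_, liftable m⟩).comp (toCox _)

theorem phi_gen (m : ℕ) (i : Fin 2) : phi m (gen _ i) =
    (![DihedralGroup.sr 0, DihedralGroup.sr 1] : Fin 2 → DihedralGroup (m + 2)) i := by
  unfold phi
  rw [MonoidHom.comp_apply, toCox_gen, ← CoxeterMatrix.toCoxeterSystem_simple,
    CoxeterSystem.lift_apply_simple]

theorem prod_alt {G : Type} [Group G] (g : B → G) (i j : B) (h : ℕ) :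
    ((alternatingWord i j (2 * h)).map g).prod = (g i * g j) ^ h := by
  induction h with
  | zero => simp [alternatingWord]
  | succ h ih =>
    rw [show 2 * (h + 1) = 2 * h + 1 + 1 by ring, alternatingWord_succ', alternatingWord_succ']
    have h1 : ¬ Even (2 * h + 1) := by simp [parity_simps]
    have h2 : Even (2 * h) := even_two_mul h
    rw [if_neg h1, if_pos h2, List.map_cons, List.map_cons, List.prod_cons, List.prod_cons, ih,
      pow_succ', mul_assoc]

/-- the braid relation for an even number of factors -/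
theorem braid {M : CoxeterMatrix B} {i j : B} {h : ℕ} (hij : M.M i j = 2 * h)
    (hji : M.M j i = 2 * h) : (gen M i * gen M j) ^ h = (gen M j * gen M i) ^ h := by
  have h1 : PresentedGroup.mk (rels M) ((braidWord M i j).map FreeGroup.of).prod =
      PresentedGroup.mk (rels M) ((braidWord M j i).map FreeGroup.of).prod :=
    PresentedGroup.mk_eq_mk_of_mul_inv_mem ⟨i, j, rfl⟩
  have e1 : braidWord M i j = alternatingWord i j (2 * h) := by
    show alternatingWord i j (M.M i j) = _
    rw [hij]
  have e2 : braidWord M j i = alternatingWord j i (2 * h) := by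
    show alternatingWord j i (M.M j i) = _
    rw [hji]
  rw [e1, e2, prod_alt, prod_alt, map_pow, map_pow, map_mul, map_mul] at h1
  exact h1

theorem cj_zpowers {G : Type} [Group G] (a s : G) :
    cj a (Subgroup.zpowers s) = Subgroup.zpowers (a⁻¹ * s * a) := by
  unfold cj
  rw [MonoidHom.map_zpowers]
  simp

theorem std_single (M : CoxeterMatrix B) (i : B) : std M {i} = Subgroup.zpowers (gen M i) := by
  unfold std
  rw [Set.image_singleton, Subgroup.zpowers_eq_closure]

theorem mem_zpowers_sr {N : ℕ} {i : ZMod N} {x : DihedralGroup N}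
    (hx : x ∈ Subgroup.zpowers (DihedralGroup.sr i)) : x = 1 ∨ x = DihedralGroup.sr i := by
  obtain ⟨k, rfl⟩ := hx
  have h2 : (DihedralGroup.sr i) ^ (2 : ℤ) = 1 := by
    rw [zpow_ofNat, pow_two, DihedralGroup.sr_mul_self]
  rcases Int.even_or_odd' k with ⟨c, rfl | rfl⟩
  · left
    show (DihedralGroup.sr i) ^ (2 * c) = 1
    rw [zpow_mul, h2, one_zpow]
  · right
    show (DihedralGroup.sr i) ^ (2 * c + 1) = _
    rw [zpow_add, zpow_mul, h2, one_zpow, one_mul, zpow_one]

theorem sr_ne_one {N : ℕ} (i : ZMod N) : (DihedralGroup.sr i : DihedralGroup N) ≠ 1 := by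
  intro h
  have h' : (DihedralGroup.sr i : DihedralGroup N) = DihedralGroup.r 0 := h
  cases h'

/-- the group of type `I₂(2h)`, `h = n + 1`: the orbit of `⟨s⟩` under `s t` has `h` elements -/
theorem dihedral (n : ℕ) :
    IsVertex (CoxeterMatrix.I (2 * n)) (std (CoxeterMatrix.I (2 * n)) {0}) ∧
    (orb (gen (CoxeterMatrix.I (2 * n)) 0 * gen (CoxeterMatrix.I (2 * n)) 1)
      (std (CoxeterMatrix.I (2 * n)) {0})).Finite ∧
    (orb (gen (CoxeterMatrix.I (2 * n)) 0 * gen (CoxeterMatrix.I (2 * n)) 1)
      (std (CoxeterMatrix.I (2 * n)) {0})).ncard = n + 1 := by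
  set M := CoxeterMatrix.I (2 * n) with hM
  set s := gen M 0 with hs
  set t := gen M 1 with ht
  have h01 : M.M 0 1 = 2 * (n + 1) := by simp [hM, CoxeterMatrix.I]; ring
  have h10 : M.M 1 0 = 2 * (n + 1) := by simp [hM, CoxeterMatrix.I]; ring
  have hp : std M {0} = Subgroup.zpowers s := std_single M 0
  have hφs : phi (2 * n) s = DihedralGroup.sr 0 := phi_gen (2 * n) 0
  have hφt : phi (2 * n) t = DihedralGroup.sr 1 := phi_gen (2 * n) 1
  have hφa : phi (2 * n) (s * t) = DihedralGroup.r 1 := by
    rw [map_mul, hφs, hφt, DihedralGroup.sr_mul_sr, sub_zero]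
  -- the power `h` is central
  have hcomm : (s * t) ^ (n + 1) * s = s * (s * t) ^ (n + 1) := by
    rw [mul_pow_mul, ← braid h01 h10]
  have hfix : cj ((s * t) ^ (n + 1)) (std M {0}) = std M {0} := by
    rw [hp, cj_zpowers, mul_assoc, ← hcomm, inv_mul_cancel_left]
  -- the images of the generators
  have him : ∀ k : ℕ, phi (2 * n) (((s * t) ^ k)⁻¹ * s * (s * t) ^ k) =
      DihedralGroup.sr ((2 * k : ℕ) : ZMod (2 * n + 2)) := by
    intro k
    rw [map_mul, map_mul, map_inv, map_pow, hφa, hφs, DihedralGroup.r_one_pow,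
      DihedralGroup.inv_r, DihedralGroup.r_mul_sr, DihedralGroup.sr_mul_r]
    congr 1
    push_cast
    ring
  have hinj : Set.InjOn (fun r : ℕ => cj ((s * t) ^ r) (std M {0}))
      (Finset.range (n + 1) : Set ℕ) := by
    intro k hk l hl hkl
    simp only [Finset.coe_range, Set.mem_Iio] at hk hl
    have h1 : cj ((s * t) ^ k) (std M {0}) = cj ((s * t) ^ l) (std M {0}) := hkl
    rw [hp, cj_zpowers, cj_zpowers] at h1
    have h2 : ((s * t) ^ l)⁻¹ * s * (s * t) ^ l ∈
        Subgroup.zpowers (((s * t) ^ k)⁻¹ * s * (s * t) ^ k) := by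
      rw [h1]; exact Subgroup.mem_zpowers _
    obtain ⟨c, hc⟩ := h2
    have h3 : DihedralGroup.sr ((2 * l : ℕ) : ZMod (2 * n + 2)) ∈
        Subgroup.zpowers (DihedralGroup.sr ((2 * k : ℕ) : ZMod (2 * n + 2))) := by
      refine ⟨c, ?_⟩
      have := congrArg (phi (2 * n)) hc
      simp only [map_zpow] at this
      rw [him, him] at this
      exact this
    rcases mem_zpowers_sr h3 with h4 | h4
    · exact absurd h4 (sr_ne_one _)
    · injection h4 with h5
      rw [ZMod.natCast_eq_natCast_iff] at h5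
      unfold Nat.ModEq at h5
      rw [Nat.mod_eq_of_lt (by omega), Nat.mod_eq_of_lt (by omega)] at h5
      omega
  refine ⟨⟨?_, {0}, ⟨⟨0, rfl⟩, ?_⟩, 1, (cj_one _).symm⟩, ?_, ?_⟩
  · intro htop
    have h1 : t ∈ std M {0} := by rw [htop]; exact Subgroup.mem_top _
    rw [hp] at h1
    obtain ⟨c, hc⟩ := h1
    have h3 : (DihedralGroup.sr 1 : DihedralGroup (2 * n + 2)) ∈
        Subgroup.zpowers (DihedralGroup.sr 0) := by
      refine ⟨c, ?_⟩
      have := congrArg (phi (2 * n)) hc
      simp only [map_zpow] at this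
      rw [hφs, hφt] at this
      exact this
    rcases mem_zpowers_sr h3 with h4 | h4
    · exact absurd h4 (sr_ne_one _)
    · injection h4 with h5
      have : Fact (1 < 2 * n + 2) := ⟨by omega⟩
      exact one_ne_zero h5
  · intro i hi j hj
    rw [Set.mem_singleton_iff] at hi hj
    subst hi; subst hj
    exact Relation.ReflTransGen.refl
  · rw [orb_sub (Nat.succ_pos n) hfix]
    exact (Finset.finite_toSet _).image _
  · rw [orb_sub (Nat.succ_pos n) hfix, hinj.ncard_image, Set.ncard_coe_finset,
      Finset.card_range]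

theorem not_uniform : ¬ Uniform 2 := by
  rintro ⟨N, hN⟩
  obtain ⟨h1, h2, h3⟩ := dihedral N
  have := hN _ (finite_dihedral (2 * N)) _ _ h1 h2
  omega

theorem fixed (M : CoxeterMatrix B) (hW : Finite M.Group) (hU : UniqueRoots M)
    (hC : CentralElements M) (α : Artin M) (P : Subgroup (Artin M)) (hP : IsVertex M P)
    (hfin : (orb α P).Finite) :
    cj (α ^ orderOf (toCox M α)) P = P ∧ (orb α P).ncard ∣ orderOf (toCox M α) ∧
      (orb α P).ncard ≤ Monoid.exponent M.Group := by
  obtain ⟨z, hz⟩ := hC P hP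
  have he : 0 < orderOf (toCox M α) := orderOf_pos _
  have hx := bound (toCox M).ker hU P z hz α (orderOf (toCox M α)) he
    (by rw [MonoidHom.mem_ker, map_pow, pow_orderOf_eq_one]) hfin
  refine ⟨hx.1, hx.2, ?_⟩
  exact (Nat.le_of_dvd he hx.2).trans (Nat.le_of_dvd
    (Nat.pos_of_ne_zero Monoid.exponent_ne_zero_of_finite) (Monoid.order_dvd_exponent _))

/-- there are finitely many Coxeter matrices of rank `n` with entries at most `L` -/
theorem finite_types (n L : ℕ) : {M : CoxeterMatrix (Fin n) | ∀ i j, M.M i j ≤ L}.Finite := by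
  have : Finite {M : CoxeterMatrix (Fin n) // ∀ i j, M.M i j ≤ L} := by
    refine Finite.of_injective (fun M => (fun i j =>
      (⟨M.1.M i j, Nat.lt_succ_of_le (M.2 i j)⟩ : Fin (L + 1)))) ?_
    intro M N h
    apply Subtype.ext
    apply CoxeterMatrix.ext
    ext i j
    have := congrFun (congrFun h i) j
    exact congrArg Fin.val this
  exact Set.finite_coe_iff.1 this

/-- one bound for all types of rank `n` with entries at most `L` -/
theorem uniform_upto (n L : ℕ) : ∃ N : ℕ, ∀ M : CoxeterMatrix (Fin n), (∀ i j, M.M i j ≤ L) →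
    Finite M.Group → UniqueRoots M → CentralElements M → ∀ (α : Artin M)
      (P : Subgroup (Artin M)), IsVertex M P → (orb α P).Finite → (orb α P).ncard ≤ N := by
  obtain ⟨N, hN⟩ := ((finite_types n L).image
    (fun M : CoxeterMatrix (Fin n) => Monoid.exponent M.Group)).bddAbove
  refine ⟨N, fun M hM hW hU hC α P hP hfin => ?_⟩
  exact (fixed M hW hU hC α P hP hfin).2.2.trans (hN ⟨M, hM, rfl⟩)

end Artin

/-- (1) the literal question has a negative answer, already for `n = 2`; (2) for a fixed group the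
size of a finite orbit of `α` divides the order of the image of `α` in the Coxeter group; (3) hence
there is one bound for all types of rank `n` with entries at most `L` (all types of rank `n` without
a component `I₂(m)`, `m > L`, if `L ≥ 5`). -/
theorem result :
    ((∀ n : ℕ, Finite (CoxeterMatrix.I (2 * n)).Group ∧
        IsVertex (CoxeterMatrix.I (2 * n)) (std (CoxeterMatrix.I (2 * n)) {0}) ∧
        (orb (gen (CoxeterMatrix.I (2 * n)) 0 * gen (CoxeterMatrix.I (2 * n)) 1)
          (std (CoxeterMatrix.I (2 * n)) {0})).Finite ∧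
        (orb (gen (CoxeterMatrix.I (2 * n)) 0 * gen (CoxeterMatrix.I (2 * n)) 1)
          (std (CoxeterMatrix.I (2 * n)) {0})).ncard = n + 1) ∧ ¬ Uniform 2) ∧
    (∀ (B : Type) (M : CoxeterMatrix B), Finite M.Group → UniqueRoots M → CentralElements M →
      ∀ (α : Artin M) (P : Subgroup (Artin M)), IsVertex M P → (orb α P).Finite →
        cj (α ^ orderOf (toCox M α)) P = P ∧ (orb α P).ncard ∣ orderOf (toCox M α) ∧
          (orb α P).ncard ≤ Monoid.exponent M.Group) ∧
    (∀ n L : ℕ, ∃ N : ℕ, ∀ M : CoxeterMatrix (Fin n), (∀ i j, M.M i j ≤ L) →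
      Finite M.Group → UniqueRoots M → CentralElements M → ∀ (α : Artin M)
        (P : Subgroup (Artin M)), IsVertex M P → (orb α P).Finite → (orb α P).ncard ≤ N) :=
  ⟨⟨fun n => ⟨finite_dihedral (2 * n), dihedral n⟩, not_uniform⟩,
    fun _ M hW hU hC α P hP hfin => fixed M hW hU hC α P hP hfin, uniform_upto⟩

end Pool.Agent.Results.MP_685115_al.FiniteOrbits
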